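import Pool.Agent.Helper88.UF.Lists

/-!
# Univariate factorisation: multiplicities of the roots determine the factorisation
-/

set_option autoImplicit false

namespace Pool.Agent.Helper88.UF

open Pool.Agent.Helper78.UF Polynomial

/-- `f` over `ℂ` -/
noncomputable def cpx (f : ℤ[X]) : ℂ[X] := f.map (Int.castRingHom ℂ)

/-- `f` over `ℚ` -/
noncomputable def rat (f : ℤ[X]) : ℚ[X] := f.map (Int.castRingHom ℚ)

theorem cpx_eq (f : ℤ[X]) : cpx f = (rat f).map (algebraMap ℚ ℂ) := by
  unfold cpx rat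
  rw [Polynomial.map_map]
  congr 1

theorem rat_ne {f : ℤ[X]} (hf : f ≠ 0) : rat f ≠ 0 :=
  (Polynomial.map_ne_zero_iff (RingHom.injective_int _)).2 hf

theorem cpx_ne {f : ℤ[X]} (hf : f ≠ 0) : cpx f ≠ 0 :=
  (Polynomial.map_ne_zero_iff (RingHom.injective_int _)).2 hf

theorem eval_cpx (f : ℤ[X]) (α : ℂ) : (cpx f).eval α = aeval α f := by
  unfold cpx
  rw [eval_map, aeval_def]
  congr 1

theorem isRoot_cpx (f : ℤ[X]) (α : ℂ) : (cpx f).IsRoot α ↔ aeval α f = 0 := by
  rw [IsRoot.def, eval_cpx]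

theorem mult_ne_zero {f : ℤ[X]} (hf : f ≠ 0) {α : ℂ} :
    (cpx f).rootMultiplicity α = 0 ↔ aeval α f ≠ 0 := by
  rw [Ne, ← isRoot_cpx, ← Polynomial.rootMultiplicity_pos (cpx_ne hf)]
  omega

/-- simple roots of irreducible polynomials -/
theorem mult_irreducible {h : ℤ[X]} (hirr : Irreducible (rat h)) {α : ℂ} (hα : aeval α h = 0) :
    (cpx h).rootMultiplicity α = 1 := by
  have h0 : h ≠ 0 := by
    rintro rfl
    exact hirr.ne_zero (by simp [rat])
  have h1 : (cpx h).Separable := by
    rw [cpx_eq]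
    exact hirr.separable.map
  have h2 := rootMultiplicity_le_one_of_separable h1 α
  have h3 : 0 < (cpx h).rootMultiplicity α :=
    (Polynomial.rootMultiplicity_pos (cpx_ne h0)).2 ((isRoot_cpx h α).2 hα)
  omega

/-- a polynomial vanishing at a root of an irreducible polynomial is divisible by it -/
theorem dvd_of_root {h : ℤ[X]} (hirr : Irreducible (rat h)) {α : ℂ} (hα : aeval α h = 0)
    {G : ℚ[X]} (hG : aeval α G = 0) : rat h ∣ G := by
  have h1 : aeval α (rat h) = 0 := by
    rw [← hα, ← eval_cpx, cpx_eq, eval_map, aeval_def]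
  have hint : IsIntegral ℚ α := by
    rw [← isAlgebraic_iff_isIntegral]
    exact ⟨rat h, hirr.ne_zero, h1⟩
  have h2 : minpoly ℚ α ∣ rat h := minpoly.dvd ℚ α h1
  have h3 : Associated (minpoly ℚ α) (rat h) :=
    (minpoly.irreducible hint).associated_of_dvd hirr h2
  exact h3.dvd_iff_dvd_left.1 (minpoly.dvd ℚ α hG)

/-- all roots of an irreducible polynomial have the same multiplicity in `f` -/
theorem exists_mult {f h : ℤ[X]} (hf : f ≠ 0) (hirr : Irreducible (rat h)) :
    ∃ k : ℕ, ∀ α : ℂ, aeval α h = 0 → (cpx f).rootMultiplicity α = k := by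
  obtain ⟨G, hG, hnd⟩ :=
    (FiniteMultiplicity.of_not_isUnit hirr.not_isUnit (rat_ne hf)).exists_eq_pow_mul_and_not_dvd
  set k := multiplicity (rat h) (rat f)
  refine ⟨k, fun α hα => ?_⟩
  have hG0 : G ≠ 0 := by
    rintro rfl
    exact rat_ne hf (by rw [hG, mul_zero])
  have h1 : cpx f = cpx h ^ k * G.map (algebraMap ℚ ℂ) := by
    rw [cpx_eq, hG, Polynomial.map_mul, Polynomial.map_pow, ← cpx_eq]
  have h2 : (G.map (algebraMap ℚ ℂ)).rootMultiplicity α = 0 := by
    rw [Polynomial.rootMultiplicity_eq_zero_iff]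
    intro hr
    exfalso
    apply hnd
    refine dvd_of_root hirr hα ?_
    rwa [IsRoot.def, eval_map, ← aeval_def] at hr
  rw [h1, Polynomial.rootMultiplicity_mul (by rw [← h1]; exact cpx_ne hf), h2,
    ← Polynomial.count_roots, Polynomial.roots_pow, Multiset.count_nsmul, Polynomial.count_roots,
    mult_irreducible hirr hα]
  simp

/-- the specification of the minimal polynomial of `α` -/
structure IsMin (h : ℤ[X]) (α : ℂ) : Prop where
  prim : h.IsPrimitive
  pos : 0 < h.leadingCoeff
  deg : 1 ≤ h.natDegree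
  root : aeval α h = 0
  irr : Irreducible (rat h)
  min : ∀ p : ℤ[X], aeval α p = 0 → h ∣ p

theorem IsMin.ne_zero {h : ℤ[X]} {α : ℂ} (H : IsMin h α) : h ≠ 0 := by
  rintro rfl
  have := H.deg
  simp at this

theorem IsMin.eq {h g : ℤ[X]} {α β : ℂ} (H : IsMin h α) (G : IsMin g β) (h0 : aeval α g = 0) :
    h = g := by
  have h1 : h ∣ g := H.min g h0
  have h2 : rat h ∣ rat g := Polynomial.map_dvd _ h1
  have h3 : Associated (rat h) (rat g) := H.irr.associated_of_dvd G.irr h2
  have h4 : aeval β h = 0 := by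
    obtain ⟨q, hq⟩ := h3.dvd'
    rw [← eval_cpx, cpx_eq, hq, Polynomial.map_mul, ← cpx_eq, eval_mul, eval_cpx, G.root, zero_mul]
  have h5 : g ∣ h := G.min h h4
  obtain ⟨q, hq⟩ := h1
  obtain ⟨r, hr⟩ := h5
  have h6 : q * r = 1 := by
    have : h * (q * r) = h * 1 := by rw [← mul_assoc, ← hq, ← hr, mul_one]
    exact mul_left_cancel₀ H.ne_zero this
  have h7 : IsUnit q := IsUnit.of_mul_eq_one _ h6
  obtain ⟨c, hc, rfl⟩ := Polynomial.isUnit_iff.1 h7
  have h8 : g.leadingCoeff = h.leadingCoeff * c := by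
    rw [hq, leadingCoeff_mul, leadingCoeff_C]
  have h9 : c = 1 := by
    rcases Int.isUnit_iff.1 hc with rfl | rfl
    · rfl
    · exfalso
      have a1 := H.pos
      have a2 := G.pos
      omega
  rw [hq, h9, C_1, mul_one]

theorem mult_flat (L : List (List ℤ × ℕ)) (hL : ∀ p ∈ L, toPoly p.1 ≠ 0) :
    ((L.flatMap fun p => List.replicate p.2 p.1).map fun c => rat (toPoly c)).prod ≠ 0 ∧
    ∀ α : ℂ, ((((L.flatMap fun p => List.replicate p.2 p.1).map fun c =>
      rat (toPoly c)).prod).map (algebraMap ℚ ℂ)).rootMultiplicity α =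
      (L.map fun p => p.2 * (cpx (toPoly p.1)).rootMultiplicity α).sum := by
  induction L with
  | nil =>
    refine ⟨by simp, fun α => ?_⟩
    simp
  | cons p L ih =>
    obtain ⟨h1, h2⟩ := ih fun q hq => hL q (List.mem_cons_of_mem _ hq)
    have hp := hL p List.mem_cons_self
    have h3 : (((p :: L).flatMap fun p => List.replicate p.2 p.1).map fun c =>
        rat (toPoly c)).prod = rat (toPoly p.1) ^ p.2 *
        ((L.flatMap fun p => List.replicate p.2 p.1).map fun c => rat (toPoly c)).prod := by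
      rw [List.flatMap_cons, List.map_append, List.prod_append, List.map_replicate,
        List.prod_replicate]
    rw [h3]
    have h4 : rat (toPoly p.1) ^ p.2 *
        ((L.flatMap fun p => List.replicate p.2 p.1).map fun c => rat (toPoly c)).prod ≠ 0 :=
      mul_ne_zero (pow_ne_zero _ (rat_ne hp)) h1
    refine ⟨h4, fun α => ?_⟩
    rw [Polynomial.map_mul, Polynomial.map_pow, ← cpx_eq, Polynomial.rootMultiplicity_mul, h2,
      List.map_cons, List.sum_cons, ← Polynomial.count_roots, Polynomial.roots_pow,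
      Multiset.count_nsmul, Polynomial.count_roots]
    rw [cpx_eq, ← Polynomial.map_pow, ← Polynomial.map_mul]
    exact (Polynomial.map_ne_zero_iff (algebraMap ℚ ℂ).injective).2 h4

/-- The factorisation from the list of minimal polynomials and multiplicities. -/
theorem assembly {f : ℤ[X]} (hf : f ≠ 0) (L : List (List ℤ × ℕ)) (hnd : L.Nodup)
    (h1 : ∀ p ∈ L, ∃ α : ℂ, aeval α f = 0 ∧ IsMin (toPoly p.1) α ∧
      p.1.length = (toPoly p.1).natDegree + 1 ∧ p.2 = (cpx f).rootMultiplicity α)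
    (h2 : ∀ α : ℂ, aeval α f = 0 → ∃ p ∈ L, aeval α (toPoly p.1) = 0)
    (h3 : ∀ α : ℂ, aeval α f = 0 → ∃ h : ℤ[X], IsMin h α) :
    Associated ((L.flatMap fun p => List.replicate p.2 p.1).map fun c => rat (toPoly c)).prod
      (rat f) := by
  have hne : ∀ p ∈ L, toPoly p.1 ≠ 0 := fun p hp => by
    obtain ⟨α, _, h, _⟩ := h1 p hp
    exact h.ne_zero
  obtain ⟨hP, hm⟩ := mult_flat L hne
  have hPc := (Polynomial.map_ne_zero_iff (algebraMap ℚ ℂ).injective).2 hP
  have hfc := (Polynomial.map_ne_zero_iff (algebraMap ℚ ℂ).injective).2 (rat_ne hf)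
  have key : ((((L.flatMap fun p => List.replicate p.2 p.1).map fun c =>
      rat (toPoly c)).prod).map (algebraMap ℚ ℂ)).roots = ((rat f).map (algebraMap ℚ ℂ)).roots := by
    ext α
    rw [Polynomial.count_roots, Polynomial.count_roots, hm, ← cpx_eq]
    by_cases hα : aeval α f = 0
    · obtain ⟨p, hp, hpα⟩ := h2 α hα
      obtain ⟨h, hh⟩ := h3 α hα
      obtain ⟨β, hβ, hmin, hlen, hmul⟩ := h1 p hp
      have e1 : h = toPoly p.1 := hh.eq hmin hpα
      have hz : ∀ q, q ≠ p → q ∈ L → q.2 * (cpx (toPoly q.1)).rootMultiplicity α = 0 := by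
        intro q hqp hq
        by_contra hcon
        apply hqp
        obtain ⟨γ, hγ, hmin', hlen', hmul'⟩ := h1 q hq
        have e2 : aeval α (toPoly q.1) = 0 := by
          by_contra h4
          exact hcon (by rw [(mult_ne_zero (hne q hq)).2 h4, mul_zero])
        have e3 : h = toPoly q.1 := hh.eq hmin' e2
        have e4 : q.1 = p.1 := by
          refine toPoly_inj ?_ (by rw [← e3, ← e1])
          rw [hlen, hlen', ← e3, ← e1]
        have e5 : q.2 = p.2 := by
          obtain ⟨k, hk⟩ := exists_mult hf hmin.irr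
          rw [hmul, hmul', hk β hmin.root, hk γ (by rw [← e4]; exact hmin'.root)]
        exact Prod.ext e4 e5
      have hc : ∀ inst : DecidableEq (List ℤ × ℕ),
          @List.count _ (@instBEqOfDecidableEq _ inst) p L = 1 := fun inst =>
        @List.count_eq_one_of_mem _ (@instBEqOfDecidableEq _ inst) _ p L hnd hp
      rw [List.sum_map_eq_nsmul_single p _ hz, hc, one_smul,
        mult_irreducible hmin.irr hpα, mul_one, hmul]
      obtain ⟨k, hk⟩ := exists_mult hf hmin.irr
      rw [hk β hmin.root, hk α hpα]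
    · rw [(mult_ne_zero hf).2 hα]
      apply List.sum_eq_zero
      intro x hx
      obtain ⟨p, hp, rfl⟩ := List.mem_map.1 hx
      obtain ⟨β, hβ, hmin, _, _⟩ := h1 p hp
      have h4 : aeval α (toPoly p.1) ≠ 0 := by
        intro h5
        apply hα
        obtain ⟨q, hq⟩ := hmin.min f hβ
        rw [hq, map_mul, h5, zero_mul]
      rw [(mult_ne_zero (hne p hp)).2 h4, mul_zero]
  refine associated_of_dvd_dvd ?_ ?_
  · rw [← Polynomial.map_dvd_map' (algebraMap ℚ ℂ), IsAlgClosed.dvd_iff_roots_le_roots hPc hfc, key]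
  · rw [← Polynomial.map_dvd_map' (algebraMap ℚ ℂ), IsAlgClosed.dvd_iff_roots_le_roots hfc hPc, key]

end Pool.Agent.Helper88.UF
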