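import Pool.Agent.Helper88.UF.Alg
import Pool.Agent.Helper79.UF.Roots
import Pool.Agent.Helper79.UF.RootsPT
import Pool.Agent.Helper69.UF.MinPol
import Pool.Agent.Helper71.UF.Mult
import Pool.Agent.Helper41.UF.PtLll
import Pool.Agent.Helper78.UF.Lll
import Pool.Agent.NCF.Defs

/-!
# Univariate factorisation over `ℚ` in polynomial time: assembly
-/

set_option autoImplicit false

namespace Pool.Agent.Helper88.UF

open Pool.Agent.PolyTime Pool.Agent.Helper78.UF Polynomial
open Pool.Agent.Helper69.UF (LLLSpec minPol_spec)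
open Pool.Agent.Helper71.UF (multAt_spec_aux pt_minPol pt_multAt pt_dedupL pt_trim pt_posLead)

/-- a bound for the size of the coefficients -/
def eOf (l : List ℤ) : ℕ := Nat.size (l.map Int.natAbs).sum

/-- the degree -/
def nOf (l : List ℤ) : ℕ := l.length - 1

/-- the precision -/
def wOf (l : List ℤ) : ℕ := pW (nOf l) (eOf l)

/-- minimal polynomial and multiplicity belonging to a square -/
def entry (l : List ℤ) (g : ℤ × ℤ) : List ℤ × ℕ :=
  (posLead (minPol (lllK (nOf l + 1) (nOf l + 3) (pX (nOf l) (eOf l)))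
    (lllT (nOf l + 1) (pX (nOf l) (eOf l))) (pS (nOf l) (eOf l)) (nOf l) (wOf l) g),
    multAt (pU (nOf l) (eOf l)) (wOf l) l g)

/-- all minimal polynomials of roots, with multiplicities -/
def pairs (l : List ℤ) : List (List ℤ × ℕ) :=
  dedupL ((squares (30000 * nOf l ^ 3 * (eOf l + wOf l + 1)) (eOf l) l (eOf l + wOf l)).map
    (entry l))

/-- the irreducible factors of a polynomial given by a list without zeros at the end -/
def facs (l : List ℤ) : List (List ℤ) :=
  bif decide (l.length ≤ 1) then [] else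
    (pairs l).flatMap fun p => List.replicate (min p.2 l.length) p.1

/-- the irreducible factors of a polynomial -/
def factorList (l : List ℤ) : List (List ℤ) := facs (trim l)

theorem multAt_le (u w : ℕ) (l : List ℤ) (g : ℤ × ℤ) : multAt u w l g ≤ l.length := by
  unfold multAt
  cases h : (List.range l.length).find? (fun j => decide (2 ^ (w * (l.length - 1 - j)) <
    n1 ((Pool.Agent.Helper78.UF.taylor g (hat 0 w l)).getD j (0, 0)) * 2 ^ u)) with
  | none => simp
  | some i =>
    have := List.mem_range.1 (List.mem_of_find?_eq_some h)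
    simpa using this.le

theorem lllSpec : LLLSpec := fun _ _ hB hm hind _ hx _ _ hT hK => lll_spec hB hm hind hx hT hK

theorem multAt_spec {l : List ℤ} {n : ℕ} (hn : l.length = n + 1) (h1 : 1 ≤ n)
    (hl : l.getLastD 0 ≠ 0) {e : ℕ} (he : (l.map Int.natAbs).sum ≤ 2 ^ e)
    {α : ℂ} (hα : aeval α (toPoly l) = 0) {g : ℤ × ℤ}
    (hg : ‖α * 2 ^ pW n e - toC g‖ ≤ 16 * n) :
    multAt (pU n e) (pW n e) l g =
      ((toPoly l).map (Int.castRingHom ℂ)).rootMultiplicity α := by
  obtain ⟨hd, hlc⟩ := natDegree_toPoly hn hl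
  have h0 : toPoly l ≠ 0 := by
    intro h
    rw [h, leadingCoeff_zero] at hlc
    exact hl hlc.symm
  have hn' : (toPoly l).natDegree ≤ n := hd.le
  refine multAt_spec_aux hn h1 hl he hg (root_bound hl he hα) fun p hp hp' hpα => ?_
  exact norm_lower h0 hn' hp (one_le_pow₀ (by norm_num)) (one_le_pow₀ (by norm_num))
    (one_le_pow₀ (by norm_num)) (Pool.Agent.Helper69.UF.abs_leadingCoeff_le he)
    (fun β hβ => root_bound hl he hβ) hp' hα hpα

section spec

variable {l : List ℤ} {n : ℕ}

theorem sum_le_eOf (l : List ℤ) : (l.map Int.natAbs).sum ≤ 2 ^ eOf l :=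
  (Nat.lt_size_self _).le

theorem toPoly_ne (hn : l.length = n + 1) (hl : l.getLastD 0 ≠ 0) : toPoly l ≠ 0 := by
  intro h
  have := (natDegree_toPoly hn hl).2
  rw [h, leadingCoeff_zero] at this
  exact hl this.symm

theorem exists_isMin {f : ℤ[X]} (hf : f ≠ 0) {α : ℂ} (hα : aeval α f = 0) :
    ∃ h : ℤ[X], IsMin h α := by
  obtain ⟨h, h1, h2, h3, h4, h5, h6⟩ := exists_minpoly hf hα
  exact ⟨h, h1, h2, h3, h4, h5, h6⟩

theorem entry_spec (hn : l.length = n + 1) (h1 : 1 ≤ n) (hl : l.getLastD 0 ≠ 0) {α : ℂ}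
    (hα : aeval α (toPoly l) = 0) {g : ℤ × ℤ} (hg : ‖α * 2 ^ wOf l - toC g‖ ≤ 16 * n) :
    IsMin (toPoly (entry l g).1) α ∧
      (entry l g).1.length = (toPoly (entry l g).1).natDegree + 1 ∧
      (entry l g).2 = (cpx (toPoly l)).rootMultiplicity α := by
  have hN : nOf l = n := by unfold nOf; omega
  obtain ⟨h, hh⟩ := exists_isMin (toPoly_ne hn hl) hα
  have hg' : ‖α * 2 ^ pW n (eOf l) - toC g‖ ≤ 16 * n := by
    rw [← hN]; rw [← hN] at hg; exact hg
  obtain ⟨e1, e2⟩ := minPol_spec lllSpec hn h1 hl (sum_le_eOf l) (K := lllK (n + 1) (n + 3) (pX n (eOf l)))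
    (T := lllT (n + 1) (pX n (eOf l))) le_rfl le_rfl hα hg' hh.prim hh.pos hh.deg hh.root hh.min
  obtain ⟨e3, e4⟩ := posLead_spec hh.pos e1 e2
  have e5 := multAt_spec hn h1 hl (sum_le_eOf l) hα hg'
  unfold entry
  simp only [hN, wOf]
  rw [e4]
  exact ⟨hh, e3, e5⟩

theorem scale_eq (z : ℂ) (e w : ℕ) : z * 2 ^ (e + w) / 2 ^ e = z * 2 ^ w := by
  rw [pow_add, div_eq_iff (pow_ne_zero _ two_ne_zero)]
  ring

theorem pairs_near (hn : l.length = n + 1) (h1 : 1 ≤ n) (hl : l.getLastD 0 ≠ 0)
    {p : List ℤ × ℕ} (hp : p ∈ pairs l) : ∃ g : ℤ × ℤ, p = entry l g ∧ ∃ α : ℂ,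
      aeval α (toPoly l) = 0 ∧ ‖α * 2 ^ wOf l - toC g‖ ≤ 16 * n := by
  have hN : nOf l = n := by unfold nOf; omega
  unfold pairs at hp
  rw [mem_dedupL, List.mem_map] at hp
  obtain ⟨g, hg, rfl⟩ := hp
  obtain ⟨α, h2, h3⟩ := (squares_spec hn h1 hl (sum_le_eOf l) (t := eOf l + wOf l)
    (K := 30000 * nOf l ^ 3 * (eOf l + wOf l + 1)) (by rw [hN])).2 g hg
  rw [scale_eq] at h3
  exact ⟨g, rfl, α, h2, h3⟩

theorem root_near (hn : l.length = n + 1) (h1 : 1 ≤ n) (hl : l.getLastD 0 ≠ 0)
    {α : ℂ} (hα : aeval α (toPoly l) = 0) : ∃ g : ℤ × ℤ, entry l g ∈ pairs l ∧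
      ‖α * 2 ^ wOf l - toC g‖ ≤ 16 * n := by
  have hN : nOf l = n := by unfold nOf; omega
  obtain ⟨g, hg, h2, h3⟩ := (squares_spec hn h1 hl (sum_le_eOf l) (t := eOf l + wOf l)
    (K := 30000 * nOf l ^ 3 * (eOf l + wOf l + 1)) (by rw [hN])).1 α hα
  refine ⟨g, ?_, ?_⟩
  · unfold pairs
    rw [mem_dedupL, List.mem_map]
    exact ⟨g, hg, rfl⟩
  · have e1 : ∀ x : ℝ, x * 2 ^ (eOf l + wOf l) / 2 ^ eOf l = x * 2 ^ wOf l := by
      intro x
      rw [pow_add, div_eq_iff (by positivity)]
      ring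
    rw [e1] at h2 h3
    refine (Complex.norm_le_abs_re_add_abs_im _).trans ?_
    have e2 : (α * 2 ^ wOf l - toC g).re = α.re * 2 ^ wOf l - g.1 := by
      have : (2 : ℂ) ^ wOf l = ((2 ^ wOf l : ℝ) : ℂ) := by push_cast; rfl
      rw [Complex.sub_re, this, Complex.re_mul_ofReal]
      rfl
    have e3 : (α * 2 ^ wOf l - toC g).im = α.im * 2 ^ wOf l - g.2 := by
      have : (2 : ℂ) ^ wOf l = ((2 ^ wOf l : ℝ) : ℂ) := by push_cast; rfl
      rw [Complex.sub_im, this, Complex.im_mul_ofReal]
      rfl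
    rw [e2, e3]
    have h4 : (1 : ℝ) ≤ n := by exact_mod_cast h1
    linarith

/-- **Correctness**. -/
theorem factorList_spec {l₀ : List ℤ} (h0 : toPoly l₀ ≠ 0) :
    (∀ c ∈ factorList l₀, Irreducible (rat (toPoly c))) ∧
    Associated ((factorList l₀).map fun c => rat (toPoly c)).prod (rat (toPoly l₀)) := by
  unfold factorList
  rw [← toPoly_trim] at h0 ⊢
  rcases trim_spec l₀ with h | h
  · rw [h] at h0
    exact absurd rfl h0
  generalize trim l₀ = l at h h0
  have hlen : l.length ≠ 0 := by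
    intro h1
    rw [List.length_eq_zero_iff] at h1
    rw [h1] at h0
    exact h0 rfl
  by_cases hl1 : l.length = 1
  · have h2 : facs l = [] := by
      unfold facs
      simp [hl1]
    rw [h2]
    refine ⟨by simp, ?_⟩
    obtain ⟨a, rfl⟩ := List.length_eq_one_iff.1 hl1
    have ha : a ≠ 0 := by
      rintro rfl
      exact h0 (by simp [toPoly])
    have h3 : rat (toPoly [a]) = C (a : ℚ) := by
      simp [rat, toPoly]
    rw [List.map_nil, List.prod_nil, h3]
    refine (associated_one_iff_isUnit.2 ?_).symm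
    rw [Polynomial.isUnit_C]
    exact isUnit_iff_ne_zero.2 (by exact_mod_cast ha)
  obtain ⟨n, hn⟩ : ∃ n, l.length = n + 1 := ⟨l.length - 1, by omega⟩
  have h1 : 1 ≤ n := by omega
  have hf : facs l = (pairs l).flatMap fun p => List.replicate p.2 p.1 := by
    unfold facs
    have h2 : ¬ l.length ≤ 1 := by omega
    simp only [h2, decide_false, cond_false]
    apply List.flatMap_congr
    intro p hp
    obtain ⟨g, rfl, _⟩ := pairs_near hn h1 h hp
    have h3 : (entry l g).2 ≤ l.length := multAt_le _ _ _ _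
    rw [min_eq_left h3]
  rw [hf]
  constructor
  · intro c hc
    obtain ⟨p, hp, hc⟩ := List.mem_flatMap.1 hc
    obtain ⟨_, rfl⟩ := List.mem_replicate.1 hc
    obtain ⟨g, rfl, α, hα, hg⟩ := pairs_near hn h1 h hp
    exact (entry_spec hn h1 h hα hg).1.irr
  · refine assembly h0 (pairs l) (nodup_dedupL _) ?_ ?_ ?_
    · intro p hp
      obtain ⟨g, rfl, α, hα, hg⟩ := pairs_near hn h1 h hp
      exact ⟨α, hα, entry_spec hn h1 h hα hg⟩
    · intro α hα
      obtain ⟨g, hg, h2⟩ := root_near hn h1 h hα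
      exact ⟨entry l g, hg, (entry_spec hn h1 h hα h2).1.root⟩
    · exact fun α hα => exists_isMin h0 hα

end spec

/-! ### polynomial time -/

theorem pt_eOf : PolyTime eOf := by
  unfold eOf
  fun_prop

theorem pbd_eOf : PBd eOf := by
  have h : PolyTime fun l : List ℤ => (l.map Int.natAbs).sum := by fun_prop
  exact h.pbd.mono fun l => by rw [size_nat]; rfl

theorem pt_nOf : PolyTime nOf := by
  unfold nOf
  fun_prop

theorem pbd_nOf : PBd nOf :=
  (pbd_length PolyTime.id).mono fun l => by unfold nOf; exact Nat.sub_le _ _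

section params

variable {α : Type} [PEnc α] {n e m x : α → ℕ}

/-- polynomial time and polynomially bounded -/
def Good (f : α → ℕ) : Prop := PolyTime f ∧ PBd f

theorem Good.add {f g : α → ℕ} (hf : Good f) (hg : Good g) : Good fun a => f a + g a :=
  ⟨hf.1.add hg.1, hf.2.add hg.2⟩

theorem Good.mul {f g : α → ℕ} (hf : Good f) (hg : Good g) : Good fun a => f a * g a :=
  ⟨hf.1.mul hg.1, hf.2.mul hg.2⟩

theorem Good.const (c : ℕ) : Good fun _ : α => c := ⟨PolyTime.const c, PBd.const c⟩

theorem Good.pow {f : α → ℕ} (hf : Good f) (k : ℕ) : Good fun a => f a ^ k :=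
  ⟨hf.1.pow_const k, hf.2.pow k⟩

theorem good_c0 (hn : Good n) (he : Good e) : Good fun a => c0 (n a) (e a) :=
  ((Good.const 4).add ((Good.const 2).mul hn)).add ((he.add (Good.const 1)).mul hn)

theorem good_b1 (hn : Good n) (he : Good e) : Good fun a => b1 (n a) (e a) :=
  (he.add hn).add ((he.add (Good.const 1)).mul hn)

theorem good_s0 (hn : Good n) (he : Good e) : Good fun a => s0 (n a) (e a) :=
  ((Good.const 2).mul ((good_b1 hn he).add (good_c0 hn he))).add (Good.const 1)

theorem good_tau (hn : Good n) (he : Good e) : Good fun a => tau (n a) (e a) :=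
  ((Good.const 2).mul hn).add (good_s0 hn he)

theorem good_pU (hn : Good n) (he : Good e) : Good fun a => pU (n a) (e a) :=
  ((he.mul hn).add (((good_tau hn he).add (he.mul hn)).mul hn)).add (Good.const 1)

theorem good_pW (hn : Good n) (he : Good e) : Good fun a => pW (n a) (e a) :=
  (((good_pU hn he).add (good_tau hn he)).add (good_c0 hn he)).add (Good.const 1)

theorem good_pS (hn : Good n) (he : Good e) : Good fun a => pS (n a) (e a) :=
  (hn.add (good_s0 hn he)).add (((Good.const 2).mul (good_pW hn he)).mul hn)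

theorem good_pX (hn : Good n) (he : Good e) : Good fun a => pX (n a) (e a) :=
  ((Good.const 2).mul ((((good_pW hn he).mul hn).add (good_pW hn he)).add
    ((he.add (Good.const 1)).mul hn))).add (Good.const 1)

theorem good_lllT (hn : Good n) (hx : Good x) : Good fun a => lllT (n a) (x a) :=
  (((Good.const 3).mul hx).mul ((hn.add (Good.const 1)).pow 2)).add (Good.const 1)

theorem good_lllK (hn : Good n) (hm : Good m) (hx : Good x) :
    Good fun a => lllK (n a) (m a) (x a) :=
  ((Good.const 1000).mul (((hn.add hm).add (Good.const 2)).pow 4)).mul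
    ((hx.add hn).add (Good.const 1))

end params

theorem good_n : Good nOf := ⟨pt_nOf, pbd_nOf⟩

theorem good_e : Good eOf := ⟨pt_eOf, pbd_eOf⟩

theorem good_w : Good wOf := good_pW good_n good_e

theorem Good.fst {β : Type} [PEnc β] {f : List ℤ → ℕ} (hf : Good f) :
    Good fun p : List ℤ × β => f p.1 :=
  ⟨hf.1.comp PolyTime.fst', hf.2.comp PolyTime.fst'⟩

theorem pt_pairs : PolyTime pairs := by
  unfold pairs
  refine pt_dedupL (PolyTime.map ?_ ?_)
  · have h1 : Good fun l => 30000 * nOf l ^ 3 * (eOf l + wOf l + 1) :=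
      ((Good.const 30000).mul (good_n.pow 3)).mul ((good_e.add good_w).add (Good.const 1))
    have h2 : Good fun l => eOf l + wOf l := good_e.add good_w
    exact pt_squares h1.1 h1.2 good_e.1 good_e.2 h2.1 h2.2 PolyTime.id
  · unfold entry
    have gn : Good fun p : List ℤ × (ℤ × ℤ) => nOf p.1 := good_n.fst
    have ge : Good fun p : List ℤ × (ℤ × ℤ) => eOf p.1 := good_e.fst
    have gw : Good fun p : List ℤ × (ℤ × ℤ) => wOf p.1 := good_w.fst
    have gX := good_pX gn ge
    have gK := good_lllK (gn.add (Good.const 1)) (gn.add (Good.const 3)) gX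
    have gT := good_lllT (gn.add (Good.const 1)) gX
    have gS := good_pS gn ge
    have gU := good_pU gn ge
    refine PolyTime.prodMk (pt_posLead ?_) ?_
    · exact pt_minPol gK.1 gK.2 gT.1 gT.2 gS.1 gS.2 gn.1 gn.2 gw.1 gw.2 PolyTime.snd' pt_lll
    · exact pt_multAt gU.1 gU.2 gw.1 gw.2 PolyTime.fst' PolyTime.snd' pt_taylor pt_hat

theorem pt_facs : PolyTime facs := by
  unfold facs
  refine PolyTime.cond (by fun_prop) (PolyTime.const []) ?_
  refine PolyTime.flatMap pt_pairs ?_
  refine PolyTime.replicate (α := List ℤ × (List ℤ × ℕ)) (n := fun p => min p.2.2 p.1.length)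
    (by fun_prop) ?_ (by fun_prop)
  exact ((pbd_length PolyTime.id).comp (β := List ℤ) PolyTime.fst').mono
    fun p => min_le_right _ _

theorem pt_factorList : PolyTime factorList :=
  pt_facs.comp (pt_trim PolyTime.id)

theorem polyZ_eq (l : List ℤ) : Pool.NCF.polyZ l = rat (toPoly l) := by
  ext i
  unfold Pool.NCF.polyZ rat
  rw [finsetSum_coeff, coeff_map, toPoly_coeff]
  simp only [coeff_C_mul, coeff_X_pow, mul_ite, mul_one, mul_zero]
  rw [Finset.sum_ite_eq]
  by_cases h : i < l.length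
  · rw [if_pos (Finset.mem_range.2 h)]
    simp
  · rw [if_neg (by simpa using h), List.getD_eq_default _ _ (by omega)]
    simp

/-- **Univariate factorisation over the rational numbers is in polynomial time.** -/
theorem exists_uniFac : ∃ F : List ℤ → List (List ℤ), PolyTime F ∧ Pool.NCF.UniFac F := by
  refine ⟨factorList, pt_factorList, fun p hp => ?_⟩
  have h0 : toPoly p ≠ 0 := by
    intro h
    apply hp.ne_zero
    rw [polyZ_eq, h]
    simp [rat]
  obtain ⟨h1, h2⟩ := factorList_spec h0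
  have h3 : (factorList p).map Pool.NCF.polyZ = (factorList p).map fun c => rat (toPoly c) :=
    List.map_congr_left fun c _ => polyZ_eq c
  rw [h3, polyZ_eq]
  exact ⟨fun g hg => by rw [polyZ_eq]; exact h1 g hg, h2⟩

/-- The same for all nonzero polynomials. -/
theorem exists_factorisation : ∃ F : List ℤ → List (List ℤ), PolyTime F ∧
    ∀ l : List ℤ, Pool.NCF.polyZ l ≠ 0 → (∀ g ∈ F l, Irreducible (Pool.NCF.polyZ g)) ∧
      Associated ((F l).map Pool.NCF.polyZ).prod (Pool.NCF.polyZ l) := by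
  refine ⟨factorList, pt_factorList, fun p hp => ?_⟩
  have h0 : toPoly p ≠ 0 := by
    intro h
    apply hp
    rw [polyZ_eq, h]
    simp [rat]
  obtain ⟨h1, h2⟩ := factorList_spec h0
  have h3 : (factorList p).map Pool.NCF.polyZ = (factorList p).map fun c => rat (toPoly c) :=
    List.map_congr_left fun c _ => polyZ_eq c
  rw [h3, polyZ_eq]
  exact ⟨fun g hg => by rw [polyZ_eq]; exact h1 g hg, h2⟩

end Pool.Agent.Helper88.UF
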