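import Pool.Agent.Helper78.UF.Params

/-!
# Univariate factorisation: elementary facts on coefficient lists
-/

set_option autoImplicit false

namespace Pool.Agent.Helper88.UF

open Pool.Agent.Helper78.UF Polynomial

theorem toPoly_append (l m : List ℤ) : toPoly (l ++ m) = toPoly l + X ^ l.length * toPoly m := by
  induction l with
  | nil => simp [toPoly]
  | cons a l ih =>
    rw [List.cons_append, toPoly, toPoly, ih, List.length_cons, pow_succ]
    ring

theorem toPoly_neg (l : List ℤ) : toPoly (l.map fun z => -z) = -toPoly l := by
  induction l with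
  | nil => simp [toPoly]
  | cons a l ih =>
    rw [List.map_cons, toPoly, toPoly, ih, map_neg]
    ring

theorem toPoly_coeff (l : List ℤ) (k : ℕ) : (toPoly l).coeff k = l.getD k 0 := by
  induction l generalizing k with
  | nil => simp [toPoly]
  | cons a l ih =>
    rw [toPoly, coeff_add]
    cases k with
    | zero => simp
    | succ k => rw [coeff_C_succ, coeff_X_mul, ih, zero_add, List.getD_cons_succ]

theorem toPoly_dropWhile (r : List ℤ) :
    toPoly (r.dropWhile fun a => decide (a = 0)).reverse = toPoly r.reverse := by
  induction r with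
  | nil => rfl
  | cons a r ih =>
    by_cases h : a = 0
    · rw [List.dropWhile_cons_of_pos (by simpa using h), ih, List.reverse_cons, toPoly_append, h]
      simp [toPoly]
    · rw [List.dropWhile_cons_of_neg (by simpa using h)]

theorem toPoly_trim (l : List ℤ) : toPoly (trim l) = toPoly l := by
  unfold trim
  rw [toPoly_dropWhile, List.reverse_reverse]

theorem trim_spec (l : List ℤ) : trim l = [] ∨ (trim l).getLastD 0 ≠ 0 := by
  unfold trim
  cases h : l.reverse.dropWhile fun a => decide (a = 0) with
  | nil => left; rfl
  | cons a r =>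
    right
    have hne : (l.reverse.dropWhile fun a => decide (a = 0)) ≠ [] := by rw [h]; simp
    have h1 := List.head_dropWhile_not (fun a : ℤ => decide (a = 0)) hne
    simp only [h, List.head_cons, decide_eq_false_iff_not] at h1
    rw [List.reverse_cons, List.getLastD_eq_getLast?, List.getLast?_append]
    simpa using h1

theorem getLastD_eq {l : List ℤ} {n : ℕ} (hn : l.length = n + 1) : l.getLastD 0 = l.getD n 0 := by
  rw [List.getLastD_eq_getLast?, List.getLast?_eq_getElem?, hn, List.getD_eq_getElem?_getD]
  rfl

theorem natDegree_toPoly {l : List ℤ} {n : ℕ} (hn : l.length = n + 1) (hl : l.getLastD 0 ≠ 0) :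
    (toPoly l).natDegree = n ∧ (toPoly l).leadingCoeff = l.getLastD 0 := by
  rw [getLastD_eq hn] at hl ⊢
  have h1 : (toPoly l).natDegree = n := by
    refine natDegree_eq_of_le_of_coeff_ne_zero ?_ (by rw [toPoly_coeff]; exact hl)
    rw [natDegree_le_iff_coeff_eq_zero]
    intro N hN
    rw [toPoly_coeff, List.getD_eq_default _ _ (by omega)]
  refine ⟨h1, ?_⟩
  rw [leadingCoeff, h1, toPoly_coeff]

theorem toPoly_inj {l m : List ℤ} (h : l.length = m.length) (e : toPoly l = toPoly m) :
    l = m := by
  refine List.ext_getElem h fun i h1 h2 => ?_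
  have h3 := congrArg (fun p => p.coeff i) e
  simp only [toPoly_coeff] at h3
  rwa [List.getD_eq_getElem _ _ h1, List.getD_eq_getElem _ _ h2] at h3

/-- The list with positive leading coefficient. -/
theorem posLead_spec {l : List ℤ} {h : ℤ[X]} (hpos : 0 < h.leadingCoeff)
    (hl : l.length = h.natDegree + 1) (e : toPoly l = h ∨ toPoly l = -h) :
    (posLead l).length = h.natDegree + 1 ∧ toPoly (posLead l) = h := by
  have h1 : l.getLastD 0 = (toPoly l).coeff h.natDegree := by
    rw [getLastD_eq hl, toPoly_coeff]
  unfold posLead
  rcases e with e | e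
  · rw [e] at h1
    have h2 : ¬ l.getLastD 0 < 0 := by
      rw [h1]; exact not_lt.2 hpos.le
    simp only [h2, decide_false, cond_false]
    exact ⟨hl, e⟩
  · rw [e, coeff_neg] at h1
    have h2 : l.getLastD 0 < 0 := by
      rw [h1]; exact neg_neg_of_pos hpos
    simp only [h2, decide_true, cond_true]
    exact ⟨by rw [List.length_map, hl], by rw [toPoly_neg, e, neg_neg]⟩

theorem mem_dedupL {L : List (List ℤ × ℕ)} {p : List ℤ × ℕ} : p ∈ dedupL L ↔ p ∈ L := by
  unfold dedupL
  induction L with
  | nil => rfl
  | cons q L ih =>
    rw [List.foldr_cons, List.mem_cons]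
    by_cases h : q ∈ List.foldr (fun p acc => bif decide (p ∈ acc) then acc else p :: acc) [] L
    · simp only [h, decide_true, cond_true]
      rw [ih]
      constructor
      · exact Or.inr
      · rintro (rfl | h1)
        · exact ih.1 h
        · exact h1
    · simp only [h, decide_false, cond_false, List.mem_cons]
      rw [ih]

theorem nodup_dedupL (L : List (List ℤ × ℕ)) : (dedupL L).Nodup := by
  unfold dedupL
  induction L with
  | nil => exact List.nodup_nil
  | cons q L ih =>
    rw [List.foldr_cons]
    by_cases h : q ∈ List.foldr (fun p acc => bif decide (p ∈ acc) then acc else p :: acc) [] L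
    · simp only [h, decide_true, cond_true]
      exact ih
    · simp only [h, decide_false, cond_false]
      exact List.nodup_cons.2 ⟨h, ih⟩

end Pool.Agent.Helper88.UF
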